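import Mathlib

/-!
# The target discounted-sum problem for `λ < 1 / 2`: a solution, or all solutions are complicated

`λ = p / q < 1 / 2` in lowest terms, `a`, `b`, `t` rational, `s` the denominator of `τ = (t - b / (1 - λ)) / (a - b)`. A computable
function decides whether there is an eventually periodic word over `{a, b}` with the discounted sum `t`. If there is one, then
it can be chosen with the initial part and the period together of length at most `2 s`. If not, then in every solution equal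
words of length `m` at two places `i < j` satisfy `λ ^ (- m) < 2 s p ^ j`, and a solution has more than `c m` words of length `m`,
for all large `m`, for every `c` with `p ^ c < q / p`.

Proof. The tails `x n = ∑ v (n + k) λ ^ k` (`v n = 1` if `u n = a`, and `0` if `u n = b`) lie in `[0, 1 / (1 - λ)] ⊆ [0, 2)`,
`s p ^ n x n` is an integer, and `x i - x j = λ ^ m (x (i + m) - x (j + m))` if the words of length `m` at `i` and `j` agree. So
`x i = x j` if `2 s p ^ j ≤ λ ^ (- m)`, and expansions are unique for `λ < 1 / 2`, so `u` is periodic from `i` on. For eventually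
periodic `u` all `x n` are `p`-integral, so they lie in `ℤ / s`, and two of `x 0, ..., x (2 s)` are equal. The algorithm
computes the `x n` (`stp`, `run`, `dec`).
-/

open Filter

namespace Pool.Agent.Lib.MP_a69748_lc.Low

/-- the tails -/
private noncomputable def xx (l : ℝ) (u : ℕ → Bool) (n : ℕ) : ℝ := ∑' k, (if u (n + k) then (1 : ℝ) else 0) * l ^ k

private theorem xx_summable {l : ℝ} (h0 : 0 ≤ l) (h1 : l < 1) (u : ℕ → Bool) (n : ℕ) :
    Summable (fun k => (if u (n + k) then (1 : ℝ) else 0) * l ^ k) := by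
  refine Summable.of_nonneg_of_le (fun k => ?_) (fun k => ?_) (summable_geometric_of_lt_one h0 h1)
  · split_ifs
    · rw [one_mul]; positivity
    · rw [zero_mul]
  · split_ifs
    · rw [one_mul]
    · rw [zero_mul]; positivity

private theorem xx_nonneg {l : ℝ} (h0 : 0 ≤ l) (u : ℕ → Bool) (n : ℕ) : 0 ≤ xx l u n := by
  refine tsum_nonneg fun k => ?_
  split_ifs
  · rw [one_mul]; positivity
  · rw [zero_mul]

private theorem xx_le {l : ℝ} (h0 : 0 ≤ l) (h1 : l < 1) (u : ℕ → Bool) (n : ℕ) : xx l u n ≤ (1 - l)⁻¹ := by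
  rw [← tsum_geometric_of_lt_one h0 h1]
  refine Summable.tsum_le_tsum (fun k => ?_) (xx_summable h0 h1 u n) (summable_geometric_of_lt_one h0 h1)
  split_ifs
  · rw [one_mul]
  · rw [zero_mul]; positivity

private theorem xx_step {l : ℝ} (h0 : 0 ≤ l) (h1 : l < 1) (u : ℕ → Bool) (n : ℕ) :
    xx l u n = (if u n then (1 : ℝ) else 0) + l * xx l u (n + 1) := by
  unfold xx
  rw [(xx_summable h0 h1 u n).tsum_eq_zero_add, ← tsum_mul_left]
  congr 1
  · simp
  · refine tsum_congr fun k => ?_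
    rw [show n + (k + 1) = n + 1 + k by ring, pow_succ]
    ring

private theorem xx_agree {l : ℝ} (h0 : 0 ≤ l) (h1 : l < 1) (u : ℕ → Bool) (i j : ℕ) :
    ∀ m : ℕ, (∀ k < m, u (i + k) = u (j + k)) → xx l u i - xx l u j = l ^ m * (xx l u (i + m) - xx l u (j + m)) := by
  intro m
  induction m with
  | zero => intro _; simp
  | succ m ih =>
    intro h
    rw [ih fun k hk => h k (by omega), xx_step h0 h1 u (i + m), xx_step h0 h1 u (j + m), h m (by omega), pow_succ,
      show i + (m + 1) = i + m + 1 by ring, show j + (m + 1) = j + m + 1 by ring]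
    ring

private theorem xx_inj {l : ℝ} (h0 : 0 ≤ l) (h1 : l < 1 / 2) (hl : 0 < l) (u : ℕ → Bool) :
    ∀ k i j : ℕ, xx l u i = xx l u j → xx l u (i + k) = xx l u (j + k) ∧ u (i + k) = u (j + k) := by
  have hl1 : l < 1 := by linarith
  have key : ∀ i j : ℕ, xx l u i = xx l u j → u i = u j := by
    have aux : ∀ i j : ℕ, xx l u i = xx l u j → u i = true → u j = false → False := by
      intro i j h hi hj
      have e1 := xx_step h0 hl1 u i
      have e2 := xx_step h0 hl1 u j
      rw [hi] at e1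
      rw [hj] at e2
      simp only [if_true] at e1
      rw [if_neg (by decide)] at e2
      have n1 := xx_nonneg h0 u (i + 1)
      have n2 := xx_le h0 hl1 u (j + 1)
      have h3 : l * xx l u (j + 1) ≤ l * (1 - l)⁻¹ := mul_le_mul_of_nonneg_left n2 h0
      have h4 : l * (1 - l)⁻¹ < 1 := by
        rw [← div_eq_mul_inv, div_lt_one (by linarith)]
        linarith
      have h5 : 0 ≤ l * xx l u (i + 1) := mul_nonneg h0 n1
      linarith
    intro i j h
    cases hi : u i <;> cases hj : u j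
    · rfl
    · exact (aux j i h.symm hj hi).elim
    · exact (aux i j h hi hj).elim
    · rfl
  intro k
  induction k with
  | zero => intro i j h; exact ⟨h, key i j h⟩
  | succ k ih =>
    intro i j h
    have h2 : xx l u (i + 1) = xx l u (j + 1) := by
      have e1 := xx_step h0 hl1 u i
      have e2 := xx_step h0 hl1 u j
      rw [key i j h] at e1
      have : l * xx l u (i + 1) = l * xx l u (j + 1) := by linarith
      exact mul_left_cancel₀ hl.ne' this
    have h3 := ih (i + 1) (j + 1) h2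
    rw [show i + (k + 1) = i + 1 + k by ring, show j + (k + 1) = j + 1 + k by ring]
    exact h3


section

variable {p q s : ℕ} {u : ℕ → Bool}

private theorem xx_int (hp : 0 < p) (hpq : 2 * p < q) (τ : ℚ) (hs : s = τ.den)
    (h0 : xx ((p : ℝ) / q) u 0 = τ) : ∀ n : ℕ, ∃ N : ℤ, (s : ℝ) * p ^ n * xx ((p : ℝ) / q) u n = N := by
  have hp' : (0 : ℝ) < p := by exact_mod_cast hp
  have hq' : (0 : ℝ) < q := by exact_mod_cast (by omega : 0 < q)
  have hpq' : 2 * (p : ℝ) < q := by exact_mod_cast hpq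
  have l0 : (0 : ℝ) ≤ (p : ℝ) / q := by positivity
  have l1 : (p : ℝ) / q < 1 := by
    rw [div_lt_one hq']
    linarith
  intro n
  induction n with
  | zero =>
    refine ⟨τ.num, ?_⟩
    rw [h0, hs, pow_zero, mul_one]
    have h := τ.den_mul_eq_num
    exact_mod_cast h
  | succ n ih =>
    obtain ⟨N, hN⟩ := ih
    have h1 := xx_step l0 l1 u n
    refine ⟨q * (N - s * p ^ n * (if u n then 1 else 0)), ?_⟩
    have h2 : (p : ℝ) * xx ((p : ℝ) / q) u (n + 1) = q * (xx ((p : ℝ) / q) u n - (if u n then (1 : ℝ) else 0)) := by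
      rw [h1]
      field_simp
      ring
    have h3 : (s : ℝ) * p ^ (n + 1) * xx ((p : ℝ) / q) u (n + 1) =
        q * (s * p ^ n * xx ((p : ℝ) / q) u n - s * p ^ n * (if u n then (1 : ℝ) else 0)) := by
      rw [pow_succ]
      linear_combination (s : ℝ) * p ^ n * h2
    rw [h3, hN]
    push_cast
    rfl

private theorem xx_rep (hp : 0 < p) (hpq : 2 * p < q) (hs0 : 0 < s)
    (hint : ∀ n : ℕ, ∃ N : ℤ, (s : ℝ) * p ^ n * xx ((p : ℝ) / q) u n = N) {i j m : ℕ} (hij : i < j)
    (hag : ∀ k < m, u (i + k) = u (j + k)) (hm : 2 * s * (p : ℝ) ^ j ≤ ((q : ℝ) / p) ^ m) :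
    ∀ k, u (i + k) = u (j + k) := by
  have hp' : (0 : ℝ) < p := by exact_mod_cast hp
  have hq' : (0 : ℝ) < q := by exact_mod_cast (by omega : 0 < q)
  have hs' : (0 : ℝ) < s := by exact_mod_cast hs0
  have hpq' : 2 * (p : ℝ) < q := by exact_mod_cast hpq
  have lpos : (0 : ℝ) < (p : ℝ) / q := by positivity
  have l2 : (p : ℝ) / q < 1 / 2 := by
    rw [div_lt_div_iff₀ hq' (by norm_num)]
    linarith
  have l1 : (p : ℝ) / q < 1 := by linarith
  suffices h : xx ((p : ℝ) / q) u i = xx ((p : ℝ) / q) u j from fun k => (xx_inj lpos.le l2 lpos u k i j h).2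
  by_contra hne
  obtain ⟨Ni, hNi⟩ := hint i
  obtain ⟨Nj, hNj⟩ := hint j
  have e1 : (s : ℝ) * p ^ j * (xx ((p : ℝ) / q) u i - xx ((p : ℝ) / q) u j) = ((p ^ (j - i) * Ni - Nj : ℤ) : ℝ) := by
    push_cast
    rw [← hNi, ← hNj]
    have : (p : ℝ) ^ j = p ^ (j - i) * p ^ i := by rw [← pow_add]; congr 1; omega
    rw [this]
    ring
  have e2 : (p ^ (j - i) * Ni - Nj : ℤ) ≠ 0 := by
    intro h
    rw [h, Int.cast_zero] at e1
    have : xx ((p : ℝ) / q) u i - xx ((p : ℝ) / q) u j ≠ 0 := sub_ne_zero.2 hne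
    have h3 : (s : ℝ) * p ^ j * (xx ((p : ℝ) / q) u i - xx ((p : ℝ) / q) u j) ≠ 0 := mul_ne_zero (by positivity) this
    exact h3 e1
  have e3 : (1 : ℝ) ≤ |(s : ℝ) * p ^ j * (xx ((p : ℝ) / q) u i - xx ((p : ℝ) / q) u j)| := by
    rw [e1, ← Int.cast_abs]
    exact_mod_cast Int.one_le_abs e2
  have e4 := xx_agree lpos.le l1 u i j m hag
  have e5 : |xx ((p : ℝ) / q) u (i + m) - xx ((p : ℝ) / q) u (j + m)| < 2 := by
    have a1 := xx_nonneg lpos.le u (i + m)
    have a2 := xx_nonneg lpos.le u (j + m)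
    have a3 := xx_le lpos.le l1 u (i + m)
    have a4 := xx_le lpos.le l1 u (j + m)
    have a5 : (1 - (p : ℝ) / q)⁻¹ < 2 := by
      rw [inv_lt_comm₀ (by linarith) (by norm_num)]
      linarith
    rw [abs_lt]
    constructor <;> linarith
  have e6 : ((p : ℝ) / q) ^ m * ((q : ℝ) / p) ^ m = 1 := by
    rw [← mul_pow, div_mul_div_comm, mul_comm (q : ℝ) p, div_self (by positivity), one_pow]
  rw [e4, abs_mul ((s : ℝ) * (p : ℝ) ^ j), abs_mul (((p : ℝ) / q) ^ m), abs_of_pos (by positivity : (0 : ℝ) < s * p ^ j),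
    abs_of_pos (by positivity : (0 : ℝ) < ((p : ℝ) / q) ^ m)] at e3
  have hlm : (0 : ℝ) < ((p : ℝ) / q) ^ m := by positivity
  have e7 : 2 * s * (p : ℝ) ^ j * ((p : ℝ) / q) ^ m ≤ 1 := by
    rw [← e6, mul_comm (((p : ℝ) / q) ^ m)]
    exact mul_le_mul_of_nonneg_right hm hlm.le
  have e8 : (s : ℝ) * p ^ j * (((p : ℝ) / q) ^ m * |xx ((p : ℝ) / q) u (i + m) - xx ((p : ℝ) / q) u (j + m)|) <
      (s : ℝ) * p ^ j * (((p : ℝ) / q) ^ m * 2) := by
    refine mul_lt_mul_of_pos_left (mul_lt_mul_of_pos_left e5 hlm) (by positivity)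
  linarith

private theorem xx_pig {m J : ℕ} (hJ : (Set.range (fun (i : ℕ) (k : Fin m) => u (i + k))).ncard ≤ J) :
    ∃ i j, i < j ∧ j ≤ J ∧ ∀ k < m, u (i + k) = u (j + k) := by
  classical
  have hfin : (Set.range (fun (i : ℕ) (k : Fin m) => u (i + k))).Finite := Set.toFinite _
  rw [Set.ncard_eq_toFinset_card _ hfin] at hJ
  obtain ⟨i, hi, j, hj, hne, heq⟩ := Finset.exists_ne_map_eq_of_card_lt_of_maps_to
    (s := Finset.range (J + 1)) (t := hfin.toFinset) (f := fun (i : ℕ) (k : Fin m) => u (i + k))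
    (by rw [Finset.card_range]; omega) (fun i _ => by
      rw [Finset.mem_coe, Set.Finite.mem_toFinset]
      exact ⟨i, rfl⟩)
  have hi' := Finset.mem_range.1 hi
  have hj' := Finset.mem_range.1 hj
  rcases lt_or_gt_of_ne hne with h | h
  · exact ⟨i, j, h, by omega, fun k hk => congrFun heq ⟨k, hk⟩⟩
  · exact ⟨j, i, h, by omega, fun k hk => (congrFun heq ⟨k, hk⟩).symm⟩

private theorem xx_per_int (hp : 0 < p) (hpq : 2 * p < q) (hcop : p.Coprime q)
    (hint : ∀ n : ℕ, ∃ N : ℤ, (s : ℝ) * p ^ n * xx ((p : ℝ) / q) u n = N) {N P : ℕ} (hP : 0 < P)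
    (hper : ∀ n, N ≤ n → u (n + P) = u n) : ∀ n : ℕ, ∃ z : ℤ, (s : ℝ) * xx ((p : ℝ) / q) u n = z := by
  have hp' : (0 : ℝ) < p := by exact_mod_cast hp
  have hq' : (0 : ℝ) < q := by exact_mod_cast (by omega : 0 < q)
  have hpq' : 2 * (p : ℝ) < q := by exact_mod_cast hpq
  have lpos : (0 : ℝ) < (p : ℝ) / q := by positivity
  have l1 : (p : ℝ) / q < 1 := by
    rw [div_lt_one hq']
    linarith
  -- if an integer multiple of `x`, the multiplier prime to `p`, is integral, so is `s x`
  have bez : ∀ (n : ℕ) (e : ℤ), IsCoprime e (p : ℤ) → (∃ z : ℤ, (e : ℝ) * (s * xx ((p : ℝ) / q) u n) = z) →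
      ∃ z : ℤ, (s : ℝ) * xx ((p : ℝ) / q) u n = z := by
    rintro n e he ⟨z, hz⟩
    obtain ⟨N', hN'⟩ := hint n
    obtain ⟨α, β, hαβ⟩ := (he.pow_right (n := n))
    refine ⟨α * z + β * N', ?_⟩
    have h1 : (α : ℝ) * e + β * (p : ℝ) ^ n = 1 := by exact_mod_cast hαβ
    push_cast
    rw [← hz, ← hN']
    linear_combination (-(s : ℝ) * xx ((p : ℝ) / q) u n) * h1
  have hlast : ∀ n, N ≤ n → ∃ z : ℤ, (s : ℝ) * xx ((p : ℝ) / q) u n = z := by
    intro n hn
    have h1 : xx ((p : ℝ) / q) u (n + P) = xx ((p : ℝ) / q) u n := by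
      unfold xx
      refine tsum_congr fun k => ?_
      rw [show n + P + k = n + k + P by ring, hper (n + k) (by omega)]
    -- `q ^ m x n - p ^ m x (n + m)` is an integer
    have h2 : ∀ m : ℕ, ∃ z : ℤ, (q : ℝ) ^ m * xx ((p : ℝ) / q) u n - p ^ m * xx ((p : ℝ) / q) u (n + m) = z := by
      intro m
      induction m with
      | zero => exact ⟨0, by simp⟩
      | succ m ih =>
        obtain ⟨z, hz⟩ := ih
        refine ⟨q * z + q * p ^ m * (if u (n + m) then 1 else 0), ?_⟩
        have h3 := xx_step lpos.le l1 u (n + m)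
        have h4 : (q : ℝ) * xx ((p : ℝ) / q) u (n + m) =
            q * (if u (n + m) then (1 : ℝ) else 0) + p * xx ((p : ℝ) / q) u (n + m + 1) := by
          rw [h3]
          field_simp
        push_cast
        rw [← hz, pow_succ, pow_succ, show n + (m + 1) = n + m + 1 by ring]
        linear_combination ((p : ℝ) ^ m) * h4
    obtain ⟨z, hz⟩ := h2 P
    rw [h1] at hz
    refine bez n ((q : ℤ) ^ P - (p : ℤ) ^ P) ?_ ⟨s * z, ?_⟩
    · have h5 : IsCoprime ((q : ℤ) ^ P) (p : ℤ) := IsCoprime.pow_left (Nat.isCoprime_iff_coprime.2 hcop.symm)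
      obtain ⟨r, rfl⟩ : ∃ r, P = r + 1 := ⟨P - 1, by omega⟩
      have h6 : (q : ℤ) ^ (r + 1) - (p : ℤ) ^ (r + 1) = (q : ℤ) ^ (r + 1) + (-(p : ℤ) ^ r) * (p : ℤ) := by ring
      rw [h6]
      exact (IsCoprime.add_mul_right_left_iff).2 h5
    · push_cast
      rw [← hz]
      ring
  intro n
  rcases le_total N n with h | h
  · exact hlast n h
  · -- downwards from `N`
    obtain ⟨d, rfl⟩ : ∃ d, N = n + d := ⟨N - n, by omega⟩
    clear h
    induction d generalizing n with
    | zero => exact hlast n (by omega)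
    | succ d ih =>
      have h7 := ih (n + 1) (fun k hk => hper k (by omega)) (fun k hk => hlast k (by omega))
      obtain ⟨z, hz⟩ := h7
      refine bez n q (Nat.isCoprime_iff_coprime.2 hcop.symm) ⟨q * s * (if u n then 1 else 0) + p * z, ?_⟩
      have h3 := xx_step lpos.le l1 u n
      have h4 : (q : ℝ) * xx ((p : ℝ) / q) u n =
          q * (if u n then (1 : ℝ) else 0) + p * xx ((p : ℝ) / q) u (n + 1) := by
        rw [h3]
        field_simp
      push_cast
      rw [← hz]
      linear_combination (s : ℝ) * h4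

private theorem xx_per_short (hp : 0 < p) (hpq : 2 * p < q) (hcop : p.Coprime q) (hs0 : 0 < s)
    (hint : ∀ n : ℕ, ∃ N : ℤ, (s : ℝ) * p ^ n * xx ((p : ℝ) / q) u n = N) {N P : ℕ} (hP : 0 < P)
    (hper : ∀ n, N ≤ n → u (n + P) = u n) : ∃ i j, i < j ∧ j ≤ 2 * s ∧ ∀ k, u (i + k) = u (j + k) := by
  have hp' : (0 : ℝ) < p := by exact_mod_cast hp
  have hq' : (0 : ℝ) < q := by exact_mod_cast (by omega : 0 < q)
  have hs' : (0 : ℝ) < s := by exact_mod_cast hs0
  have hpq' : 2 * (p : ℝ) < q := by exact_mod_cast hpq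
  have lpos : (0 : ℝ) < (p : ℝ) / q := by positivity
  have l2 : (p : ℝ) / q < 1 / 2 := by
    rw [div_lt_div_iff₀ hq' (by norm_num)]
    linarith
  have l1 : (p : ℝ) / q < 1 := by linarith
  choose z hz using xx_per_int hp hpq hcop hint hP hper
  have hz0 : ∀ n, 0 ≤ z n := by
    intro n
    have : (0 : ℝ) ≤ z n := by rw [← hz n]; exact mul_nonneg hs'.le (xx_nonneg lpos.le u n)
    exact_mod_cast this
  have hz2 : ∀ n, z n < 2 * s := by
    intro n
    have a3 := xx_le lpos.le l1 u n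
    have a5 : (1 - (p : ℝ) / q)⁻¹ < 2 := by
      rw [inv_lt_comm₀ (by linarith) (by norm_num)]
      linarith
    have : (z n : ℝ) < 2 * s := by
      rw [← hz n, mul_comm]
      exact mul_lt_mul_of_pos_right (lt_of_le_of_lt a3 a5) hs'
    exact_mod_cast this
  obtain ⟨i, hi, j, hj, hne, heq⟩ := Finset.exists_ne_map_eq_of_card_lt_of_maps_to
    (s := Finset.range (2 * s + 1)) (t := Finset.range (2 * s)) (f := fun n => (z n).toNat)
    (by rw [Finset.card_range, Finset.card_range]; omega) (fun n _ => by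
      have h1 := hz0 n
      have h2 := hz2 n
      rw [Finset.coe_range, Set.mem_Iio]
      show (z n).toNat < 2 * s
      omega)
  have hi' := Finset.mem_range.1 hi
  have hj' := Finset.mem_range.1 hj
  have hzz : z i = z j := by
    have h1 := hz0 i
    have h2 := hz0 j
    have h3 : (z i).toNat = (z j).toNat := heq
    omega
  have hx : xx ((p : ℝ) / q) u i = xx ((p : ℝ) / q) u j := by
    have h1 := hz i
    rw [hzz, ← hz j] at h1
    exact mul_left_cancel₀ hs'.ne' h1
  rcases lt_or_gt_of_ne hne with h | h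
  · exact ⟨i, j, h, by omega, fun k => (xx_inj lpos.le l2 lpos u k i j hx).2⟩
  · exact ⟨j, i, h, by omega, fun k => (xx_inj lpos.le l2 lpos u k j i hx.symm).2⟩

end

private theorem pr_toNat : Primrec (fun z : ℤ => z.toNat) := by
  have h : Primrec fun z : ℤ => if Encodable.encode z % 2 = 0 then Encodable.encode z / 2 else 0 :=
    Primrec.ite (Primrec.eq.comp (Primrec.nat_mod.comp Primrec.encode (Primrec.const 2)) (Primrec.const 0))
      (Primrec.nat_div.comp Primrec.encode (Primrec.const 2)) (Primrec.const 0)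
  refine h.of_eq fun z => ?_
  cases z with
  | ofNat n =>
    have e : Encodable.encode (Int.ofNat n) = 2 * n := rfl
    rw [e]
    simp
  | negSucc n =>
    have e : Encodable.encode (Int.negSucc n) = 2 * n + 1 := rfl
    rw [e, if_neg (by omega)]
    simp

private theorem pr_toNatNeg : Primrec (fun z : ℤ => (-z).toNat) := by
  have h : Primrec fun z : ℤ => if Encodable.encode z % 2 = 0 then 0 else Encodable.encode z / 2 + 1 :=
    Primrec.ite (Primrec.eq.comp (Primrec.nat_mod.comp Primrec.encode (Primrec.const 2)) (Primrec.const 0))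
      (Primrec.const 0) (Primrec.succ.comp (Primrec.nat_div.comp Primrec.encode (Primrec.const 2)))
  refine h.of_eq fun z => ?_
  cases z with
  | ofNat n =>
    have e : Encodable.encode (Int.ofNat n) = 2 * n := rfl
    rw [e, if_pos (by omega)]
    simp
  | negSucc n =>
    have e : Encodable.encode (Int.negSucc n) = 2 * n + 1 := rfl
    rw [e, if_neg (by omega)]
    have : (-(Int.negSucc n)).toNat = n + 1 := rfl
    rw [this]
    omega

/-- the next numerator -/
private def zz (Q B y : ℕ) : ℕ := Q * (y - (if B ≤ y then B else 0))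

/-- one step; `0` is failure, `y + 1` the numerator `y` -/
private def stp (P Q B s : ℕ) : ℕ :=
  if s = 0 then 0 else if zz Q B (s - 1) % P = 0 ∧ zz Q B (s - 1) / P * (Q - P) ≤ B * Q then zz Q B (s - 1) / P + 1 else 0

private theorem pr_zz {α : Type*} [Primcodable α] {Q B y : α → ℕ} (hQ : Primrec Q) (hB : Primrec B) (hy : Primrec y) :
    Primrec fun x => zz (Q x) (B x) (y x) := by
  unfold zz
  exact Primrec.nat_mul.comp hQ (Primrec.nat_sub.comp hy (Primrec.ite (Primrec.nat_le.comp hB hy) hB (Primrec.const 0)))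

private theorem pr_stp {α : Type*} [Primcodable α] {P Q B s : α → ℕ} (hP : Primrec P) (hQ : Primrec Q) (hB : Primrec B)
    (hs : Primrec s) : Primrec fun x => stp (P x) (Q x) (B x) (s x) := by
  unfold stp
  have hs1 : Primrec fun x => s x - 1 := Primrec.nat_sub.comp hs (Primrec.const 1)
  have hz := pr_zz hQ hB hs1
  refine Primrec.ite (Primrec.eq.comp hs (Primrec.const 0)) (Primrec.const 0) (Primrec.ite ?_ ?_ (Primrec.const 0))
  · refine PrimrecPred.and (Primrec.eq.comp (Primrec.nat_mod.comp hz hP) (Primrec.const 0)) ?_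
    exact Primrec.nat_le.comp (Primrec.nat_mul.comp (Primrec.nat_div.comp hz hP) (Primrec.nat_sub.comp hQ hP))
      (Primrec.nat_mul.comp hB hQ)
  · exact Primrec.succ.comp (Primrec.nat_div.comp hz hP)

/-- the run of the algorithm -/
private def run (P Q A B : ℕ) : Prop := A * (Q - P) ≤ B * Q ∧ (stp P Q B)^[2 * B + 1] (A + 1) ≠ 0

private theorem pr_run {α : Type*} [Primcodable α] {P Q A B : α → ℕ} (hP : Primrec P) (hQ : Primrec Q) (hA : Primrec A)
    (hB : Primrec B) : PrimrecPred fun x => run (P x) (Q x) (A x) (B x) := by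
  unfold run
  refine PrimrecPred.and (Primrec.nat_le.comp (Primrec.nat_mul.comp hA (Primrec.nat_sub.comp hQ hP))
      (Primrec.nat_mul.comp hB hQ)) ?_
  refine PrimrecPred.not (Primrec.eq.comp ?_ (Primrec.const 0))
  refine Primrec.nat_iterate (f := fun x => 2 * B x + 1) (g := fun x => A x + 1) (h := fun x s => stp (P x) (Q x) (B x) s)
    (Primrec.succ.comp (Primrec.nat_mul.comp (Primrec.const 2) hB)) (Primrec.succ.comp hA) ?_
  exact pr_stp (hP.comp Primrec.fst) (hQ.comp Primrec.fst) (hB.comp Primrec.fst) Primrec.snd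

/-- codes of inputs `((a, b), (t, l))` -/
private abbrev XX := ((ℤ × ℕ) × (ℤ × ℕ)) × ((ℤ × ℕ) × (ℤ × ℕ))

private def fP (x : XX) : ℕ := x.2.2.1.toNat
private def fQ (x : XX) : ℕ := x.2.2.2 + 1
private def fNp (x : XX) : ℕ := (x.1.1.2 + 1) * (x.2.1.1.toNat * (x.1.2.2 + 1) * (fQ x - fP x) + (-x.1.2.1).toNat * fQ x * (x.2.1.2 + 1))
private def fNm (x : XX) : ℕ := (x.1.1.2 + 1) * ((-x.2.1.1).toNat * (x.1.2.2 + 1) * (fQ x - fP x) + x.1.2.1.toNat * fQ x * (x.2.1.2 + 1))
private def fDp (x : XX) : ℕ := (x.2.1.2 + 1) * (fQ x - fP x) * (x.1.1.1.toNat * (x.1.2.2 + 1) + (-x.1.2.1).toNat * (x.1.1.2 + 1))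
private def fDm (x : XX) : ℕ := (x.2.1.2 + 1) * (fQ x - fP x) * ((-x.1.1.1).toNat * (x.1.2.2 + 1) + x.1.2.1.toNat * (x.1.1.2 + 1))

private theorem pr_fP : Primrec fP := pr_toNat.comp (Primrec.fst.comp (Primrec.snd.comp Primrec.snd))
private theorem pr_fQ : Primrec fQ := Primrec.succ.comp (Primrec.snd.comp (Primrec.snd.comp Primrec.snd))

section
private theorem pa2 : Primrec fun x : XX => x.1.1.2 + 1 := Primrec.succ.comp (Primrec.snd.comp (Primrec.fst.comp Primrec.fst))
private theorem pb2 : Primrec fun x : XX => x.1.2.2 + 1 := Primrec.succ.comp (Primrec.snd.comp (Primrec.snd.comp Primrec.fst))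
private theorem pt2 : Primrec fun x : XX => x.2.1.2 + 1 := Primrec.succ.comp (Primrec.snd.comp (Primrec.fst.comp Primrec.snd))
private theorem pa1 : Primrec fun x : XX => x.1.1.1.toNat := pr_toNat.comp (Primrec.fst.comp (Primrec.fst.comp Primrec.fst))
private theorem pa1' : Primrec fun x : XX => (-x.1.1.1).toNat := pr_toNatNeg.comp (Primrec.fst.comp (Primrec.fst.comp Primrec.fst))
private theorem pb1 : Primrec fun x : XX => x.1.2.1.toNat := pr_toNat.comp (Primrec.fst.comp (Primrec.snd.comp Primrec.fst))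
private theorem pb1' : Primrec fun x : XX => (-x.1.2.1).toNat := pr_toNatNeg.comp (Primrec.fst.comp (Primrec.snd.comp Primrec.fst))
private theorem pt1 : Primrec fun x : XX => x.2.1.1.toNat := pr_toNat.comp (Primrec.fst.comp (Primrec.fst.comp Primrec.snd))
private theorem pt1' : Primrec fun x : XX => (-x.2.1.1).toNat := pr_toNatNeg.comp (Primrec.fst.comp (Primrec.fst.comp Primrec.snd))
private theorem pqp : Primrec fun x : XX => fQ x - fP x := Primrec.nat_sub.comp pr_fQ pr_fP

private theorem pNp : Primrec fNp := Primrec.nat_mul.comp pa2 (Primrec.nat_add.comp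
  (Primrec.nat_mul.comp (Primrec.nat_mul.comp pt1 pb2) pqp) (Primrec.nat_mul.comp (Primrec.nat_mul.comp pb1' pr_fQ) pt2))
private theorem pNm : Primrec fNm := Primrec.nat_mul.comp pa2 (Primrec.nat_add.comp
  (Primrec.nat_mul.comp (Primrec.nat_mul.comp pt1' pb2) pqp) (Primrec.nat_mul.comp (Primrec.nat_mul.comp pb1 pr_fQ) pt2))
private theorem pDp : Primrec fDp := Primrec.nat_mul.comp (Primrec.nat_mul.comp pt2 pqp) (Primrec.nat_add.comp
  (Primrec.nat_mul.comp pa1 pb2) (Primrec.nat_mul.comp pb1' pa2))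
private theorem pDm : Primrec fDm := Primrec.nat_mul.comp (Primrec.nat_mul.comp pt2 pqp) (Primrec.nat_add.comp
  (Primrec.nat_mul.comp pa1' pb2) (Primrec.nat_mul.comp pb1 pa2))
end

/-- the decision -/
private def dec (x : XX) : Prop :=
  (0 < fP x ∧ 2 * fP x < fQ x) ∧
    ((fDp x = fDm x ∧ fNp x = fNm x) ∨
      ((fNm x ≤ fNp x ∧ fDm x < fDp x) ∧ run (fP x) (fQ x) (fNp x - fNm x) (fDp x - fDm x)) ∨
      ((fNp x ≤ fNm x ∧ fDp x < fDm x) ∧ run (fP x) (fQ x) (fNm x - fNp x) (fDm x - fDp x)))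

private theorem pr_dec : PrimrecPred dec := by
  unfold dec
  refine PrimrecPred.and (PrimrecPred.and (Primrec.nat_lt.comp (Primrec.const 0) pr_fP)
    (Primrec.nat_lt.comp (Primrec.nat_mul.comp (Primrec.const 2) pr_fP) pr_fQ)) (PrimrecPred.or ?_ (PrimrecPred.or ?_ ?_))
  · exact PrimrecPred.and (Primrec.eq.comp pDp pDm) (Primrec.eq.comp pNp pNm)
  · refine PrimrecPred.and (PrimrecPred.and (Primrec.nat_le.comp pNm pNp) (Primrec.nat_lt.comp pDm pDp)) ?_
    exact pr_run pr_fP pr_fQ (Primrec.nat_sub.comp pNp pNm) (Primrec.nat_sub.comp pDp pDm)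
  · refine PrimrecPred.and (PrimrecPred.and (Primrec.nat_le.comp pNp pNm) (Primrec.nat_lt.comp pDp pDm)) ?_
    exact pr_run pr_fP pr_fQ (Primrec.nat_sub.comp pNm pNp) (Primrec.nat_sub.comp pDm pDp)

section

variable {P Q A B : ℕ}

private theorem stp_zero : ∀ n : ℕ, (stp P Q B)^[n] 0 = 0 := by
  intro n
  induction n with
  | zero => rfl
  | succ n ih => rw [Function.iterate_succ_apply, show stp P Q B 0 = 0 from if_pos rfl, ih]

private theorem stp_succ (n : ℕ) : (stp P Q B)^[n + 1] (A + 1) = stp P Q B ((stp P Q B)^[n] (A + 1)) :=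
  Function.iterate_succ_apply' _ _ _

private theorem stp_mono {n m : ℕ} (h : n ≤ m) (hm : (stp P Q B)^[m] (A + 1) ≠ 0) : (stp P Q B)^[n] (A + 1) ≠ 0 := by
  intro h0
  apply hm
  obtain ⟨d, rfl⟩ : ∃ d, m = d + n := ⟨m - n, by omega⟩
  rw [Function.iterate_add_apply, h0, stp_zero]

private theorem stp_spec {s : ℕ} (h1 : s ≠ 0) (h2 : stp P Q B s ≠ 0) : zz Q B (s - 1) = P * (stp P Q B s - 1) := by
  unfold stp at h2 ⊢
  rw [if_neg h1] at h2 ⊢
  by_cases h5 : zz Q B (s - 1) % P = 0 ∧ zz Q B (s - 1) / P * (Q - P) ≤ B * Q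
  · rw [if_pos h5, Nat.add_sub_cancel]
    exact (Nat.mul_div_cancel' (Nat.dvd_of_mod_eq_zero h5.1)).symm
  · rw [if_neg h5] at h2
    exact absurd rfl h2

/-- a run of length `2 B + 1` is eventually periodic -/
private theorem run_per (hPQ : 2 * P < Q) (hB : 0 < B) (h : run P Q A B) : (∀ n, (stp P Q B)^[n] (A + 1) ≠ 0) ∧
    (∀ n, ((stp P Q B)^[n] (A + 1) - 1) * (Q - P) ≤ B * Q) ∧
    ∃ i j, i < j ∧ ∀ k, (stp P Q B)^[i + k] (A + 1) = (stp P Q B)^[j + k] (A + 1) := by
  obtain ⟨h1, h2⟩ := h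
  have hbd : ∀ n, ((stp P Q B)^[n] (A + 1) - 1) * (Q - P) ≤ B * Q := by
    intro n
    cases n with
    | zero => simpa using h1
    | succ n =>
      rw [stp_succ]
      set y := (stp P Q B)^[n] (A + 1)
      unfold stp
      split_ifs with e1 e2
      · simp
      · rw [Nat.add_sub_cancel]; exact e2.2
      · simp
  have hlt : ∀ n, (stp P Q B)^[n] (A + 1) - 1 < 2 * B := by
    intro n
    have h3 := hbd n
    by_contra h4
    have h5 : 2 * B * (Q - P) ≤ ((stp P Q B)^[n] (A + 1) - 1) * (Q - P) := Nat.mul_le_mul_right _ (not_lt.1 h4)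
    have h6 : B * Q < 2 * B * (Q - P) := by
      have : Q < 2 * (Q - P) := by omega
      calc B * Q < B * (2 * (Q - P)) := Nat.mul_lt_mul_of_pos_left this hB
        _ = 2 * B * (Q - P) := by ring
    omega
  obtain ⟨i, hi, j, hj, hne, heq⟩ := Finset.exists_ne_map_eq_of_card_lt_of_maps_to
    (s := Finset.range (2 * B + 1)) (t := Finset.range (2 * B)) (f := fun n => (stp P Q B)^[n] (A + 1) - 1)
    (by rw [Finset.card_range, Finset.card_range]; omega) (fun n _ => by
      rw [Finset.coe_range, Set.mem_Iio]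
      exact hlt n)
  have hi' := Finset.mem_range.1 hi
  have hj' := Finset.mem_range.1 hj
  have hi0 := stp_mono (n := i) (by omega) h2
  have hj0 := stp_mono (n := j) (by omega) h2
  have heq' : (stp P Q B)^[i] (A + 1) = (stp P Q B)^[j] (A + 1) := by
    have h3 : (stp P Q B)^[i] (A + 1) - 1 = (stp P Q B)^[j] (A + 1) - 1 := heq
    omega
  have main : ∀ i j : ℕ, i < j → j ≤ 2 * B → (stp P Q B)^[i] (A + 1) = (stp P Q B)^[j] (A + 1) →
      (∀ n, (stp P Q B)^[n] (A + 1) ≠ 0) ∧ ∀ k, (stp P Q B)^[i + k] (A + 1) = (stp P Q B)^[j + k] (A + 1) := by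
    intro i j hij hjB he
    have hk : ∀ k, (stp P Q B)^[i + k] (A + 1) = (stp P Q B)^[j + k] (A + 1) := by
      intro k
      rw [add_comm i k, add_comm j k, Function.iterate_add_apply, Function.iterate_add_apply, he]
    refine ⟨?_, hk⟩
    have hm : ∀ m, (stp P Q B)^[i + m] (A + 1) ≠ 0 := by
      intro m
      induction m using Nat.strong_induction_on with
      | _ m ih =>
        by_cases hmj : i + m ≤ 2 * B + 1
        · exact stp_mono hmj h2
        · have h3 := hk (m - (j - i))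
          rw [show j + (m - (j - i)) = i + m by omega] at h3
          rw [← h3]
          exact ih (m - (j - i)) (by omega)
    intro n
    exact stp_mono (n := n) (m := i + n) (by omega) (hm n)
  rcases lt_or_gt_of_ne hne with h | h
  · obtain ⟨m1, m2⟩ := main i j h (by omega) heq'
    exact ⟨m1, hbd, i, j, h, m2⟩
  · obtain ⟨m1, m2⟩ := main j i h (by omega) heq'.symm
    exact ⟨m1, hbd, j, i, h, m2⟩

/-- the tails are determined by the recursion and boundedness -/
private theorem xx_unique {l : ℝ} (h0 : 0 ≤ l) (h1 : l < 1) (u : ℕ → Bool) (x : ℕ → ℝ) (C : ℝ) (hC : ∀ n, |x n| ≤ C)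
    (hx : ∀ n, x n = (if u n then (1 : ℝ) else 0) + l * x (n + 1)) : x 0 = xx l u 0 := by
  have h2 : ∀ n, x 0 - xx l u 0 = l ^ n * (x n - xx l u n) := by
    intro n
    induction n with
    | zero => simp
    | succ n ih =>
      rw [ih, hx n, xx_step h0 h1 u n, pow_succ]
      ring
  have h3 : Tendsto (fun n : ℕ => l ^ n * (C + (1 - l)⁻¹)) atTop (nhds 0) := by
    have := (tendsto_pow_atTop_nhds_zero_of_lt_one h0 h1).mul_const (C + (1 - l)⁻¹)
    rwa [zero_mul] at this
  have h4 : |x 0 - xx l u 0| ≤ 0 := by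
    refine ge_of_tendsto' h3 fun n => ?_
    rw [h2 n, abs_mul, abs_of_nonneg (pow_nonneg h0 n)]
    refine mul_le_mul_of_nonneg_left ?_ (pow_nonneg h0 n)
    have h5 : |xx l u n| ≤ (1 - l)⁻¹ := by
      rw [abs_of_nonneg (xx_nonneg h0 u n)]
      exact xx_le h0 h1 u n
    calc |x n - xx l u n| ≤ |x n| + |xx l u n| := abs_sub _ _
      _ ≤ C + (1 - l)⁻¹ := add_le_add (hC n) h5
  have h5 : x 0 - xx l u 0 = 0 := abs_nonpos_iff.1 h4
  linarith

end

/-- the number of the words of length `m` in `u` -/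
private noncomputable def cx (u : ℕ → Bool) (m : ℕ) : ℕ := (Set.range (fun (i : ℕ) (k : Fin m) => u (i + k))).ncard

/-- `u` has low complexity: infinitely often there are at most `c m` words of length `m`, `p ^ c < q / p`, `l = p / q` -/
private def Low (l : ℚ) (u : ℕ → Bool) : Prop :=
  ∃ c : ℝ, (l.num : ℝ) ^ c * l < 1 ∧ ∃ᶠ m : ℕ in atTop, (cx u m : ℝ) ≤ c * m

/-- the fraction with the code `z` -/
private def frac (z : ℤ × ℕ) : ℚ := z.1 / (z.2 + 1)

/-- the normalised target -/
private def tau (a b t l : ℚ) : ℚ := (t - b / (1 - l)) / (a - b)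

private theorem setup {l : ℚ} (h0 : 0 < l) (h1 : l < 1 / 2) : ∃ p q : ℕ, 0 < p ∧ 2 * p < q ∧ p.Coprime q ∧
    (l : ℝ) = p / q ∧ (l.num : ℝ) = p := by
  have hn : 0 < l.num := Rat.num_pos.2 h0
  have e1 : ((l.num.toNat : ℕ) : ℤ) = l.num := Int.toNat_of_nonneg hn.le
  have e2 : (l.num : ℝ) = (l.num.toNat : ℕ) := by
    rw [← Int.cast_natCast (R := ℝ), e1]
  have e3 : (l : ℝ) = (l.num : ℝ) / l.den := by
    rw [Rat.cast_def]
  have hd : (0 : ℝ) < l.den := by exact_mod_cast l.den_pos
  have h1' : (l : ℝ) < 1 / 2 := by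
    have : ((l : ℚ) : ℝ) < ((1 / 2 : ℚ) : ℝ) := by exact_mod_cast h1
    simpa using this
  refine ⟨l.num.toNat, l.den, by omega, ?_, ?_, by rw [e3, e2], e2⟩
  · rw [e3, e2, div_lt_iff₀ hd] at h1'
    have : 2 * ((l.num.toNat : ℕ) : ℝ) < (l.den : ℝ) := by linarith
    exact_mod_cast this
  · have h := l.reduced
    rwa [show l.num.natAbs = l.num.toNat by omega] at h

private theorem sum_iff {a b t : ℚ} (hab : a ≠ b) {l : ℚ} (h0 : 0 < l) (h1 : l < 1 / 2) (u : ℕ → Bool) :
    HasSum (fun n => (if u n then (a : ℝ) else b) * (l : ℝ) ^ n) t ↔ xx l u 0 = (tau a b t l : ℚ) := by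
  have l0 : (0 : ℝ) < l := by exact_mod_cast h0
  have l1 : (l : ℝ) < 1 := by
    have : (l : ℝ) < ((1 / 2 : ℚ) : ℝ) := by exact_mod_cast h1
    have h2 : ((1 / 2 : ℚ) : ℝ) = 1 / 2 := by norm_num
    linarith
  have hba : (a : ℝ) - b ≠ 0 := by
    intro h
    apply hab
    have : (a : ℝ) = b := by linarith
    exact_mod_cast this
  have hs : HasSum (fun n => (if u n then (a : ℝ) else b) * (l : ℝ) ^ n)
      ((b : ℝ) * (1 - (l : ℝ))⁻¹ + ((a : ℝ) - b) * xx l u 0) := by
    have h1 : HasSum (fun n => (b : ℝ) * (l : ℝ) ^ n + ((a : ℝ) - b) * ((if u (0 + n) then (1 : ℝ) else 0) *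
        (l : ℝ) ^ n)) ((b : ℝ) * (1 - (l : ℝ))⁻¹ + ((a : ℝ) - b) * xx l u 0) :=
      ((hasSum_geometric_of_lt_one l0.le l1).mul_left _).add ((xx_summable l0.le l1 u 0).hasSum.mul_left _)
    refine h1.congr_fun ?_
    intro n
    rw [zero_add]
    split_ifs <;> ring
  have ht : ((tau a b t l : ℚ) : ℝ) = ((t : ℝ) - b * (1 - (l : ℝ))⁻¹) / ((a : ℝ) - b) := by
    unfold tau
    push_cast
    rw [div_eq_mul_inv (b : ℝ)]
  rw [ht, eq_div_iff hba]
  constructor
  · intro h
    have := h.unique hs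
    linarith
  · intro h
    have e : (t : ℝ) = (b : ℝ) * (1 - (l : ℝ))⁻¹ + ((a : ℝ) - b) * xx l u 0 := by linarith
    rw [e]
    exact hs

private theorem low_of_per {l : ℚ} (h0 : 0 < l) (h1 : l < 1 / 2) {u : ℕ → Bool} {i j : ℕ} (hij : i < j)
    (h : ∀ k, u (i + k) = u (j + k)) : Low l u := by
  have l0 : (0 : ℝ) < l := by exact_mod_cast h0
  have l1 : (l : ℝ) < 1 := by
    have : (l : ℝ) < ((1 / 2 : ℚ) : ℝ) := by exact_mod_cast h1
    have h2 : ((1 / 2 : ℚ) : ℝ) = 1 / 2 := by norm_num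
    linarith
  have hn : (0 : ℝ) < l.num := by exact_mod_cast Rat.num_pos.2 h0
  -- a small positive `c`
  have hc : ∃ c : ℝ, 0 < c ∧ (l.num : ℝ) ^ c * l < 1 := by
    have hcont : Tendsto (fun c : ℝ => (l.num : ℝ) ^ c * l) (nhdsWithin 0 (Set.Ioi 0)) (nhds ((l.num : ℝ) ^ (0 : ℝ) * l)) := by
      refine Tendsto.mono_left ?_ nhdsWithin_le_nhds
      exact (((Real.continuous_const_rpow hn.ne').mul continuous_const).tendsto 0)
    rw [Real.rpow_zero, one_mul] at hcont
    obtain ⟨c, hc1, hc2⟩ := ((hcont.eventually_lt_const l1).and self_mem_nhdsWithin).exists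
    exact ⟨c, hc2, hc1⟩
  obtain ⟨c, hc0, hc1⟩ := hc
  refine ⟨c, hc1, ?_⟩
  have hcx : ∀ m, cx u m ≤ j := by
    intro m
    have hsub : Set.range (fun (i : ℕ) (k : Fin m) => u (i + k)) ⊆
        (fun (i : ℕ) (k : Fin m) => u (i + k)) '' (Finset.range j : Set ℕ) := by
      rintro _ ⟨n, rfl⟩
      induction n using Nat.strong_induction_on with
      | _ n ih =>
        by_cases hn : n < j
        · exact ⟨n, by rw [Finset.coe_range]; exact hn, rfl⟩
        · have h2 : (fun k : Fin m => u (n - (j - i) + k)) = fun k : Fin m => u (n + k) := by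
            funext k
            have h3 := h (n - j + k)
            rw [show i + (n - j + (k : ℕ)) = n - (j - i) + k by omega,
              show j + (n - j + (k : ℕ)) = n + k by omega] at h3
            exact h3
          have h4 := ih (n - (j - i)) (by omega)
          show (fun k : Fin m => u (n + k)) ∈ _
          rw [← h2]
          exact h4
    calc cx u m ≤ ((fun (i : ℕ) (k : Fin m) => u (i + k)) '' (Finset.range j : Set ℕ)).ncard :=
          Set.ncard_le_ncard hsub (Set.toFinite _)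
      _ ≤ (Finset.range j : Set ℕ).ncard := Set.ncard_image_le (Set.toFinite _)
      _ = j := by rw [Set.ncard_coe_finset, Finset.card_range]
  refine Eventually.frequently ?_
  filter_upwards [eventually_ge_atTop ⌈(j : ℝ) / c⌉₊] with m hm
  have h3 : (j : ℝ) / c ≤ m := le_trans (Nat.le_ceil _) (by exact_mod_cast hm)
  rw [div_le_iff₀ hc0] at h3
  calc (cx u m : ℝ) ≤ j := by exact_mod_cast hcx m
    _ ≤ c * m := by linarith

private theorem part1 {a b t : ℚ} (hab : a ≠ b) {l : ℚ} (h0 : 0 < l) (h1 : l < 1 / 2) {u : ℕ → Bool}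
    (hu : HasSum (fun n => (if u n then (a : ℝ) else b) * (l : ℝ) ^ n) t) :
    (∀ i j m : ℕ, i < j → (∀ k < m, u (i + k) = u (j + k)) →
      2 * (tau a b t l).den * (l.num : ℝ) ^ j * (l : ℝ) ^ m ≤ 1 → ∀ k, u (i + k) = u (j + k)) ∧
    (∀ m J : ℕ, 2 * (tau a b t l).den * (l.num : ℝ) ^ J * (l : ℝ) ^ m ≤ 1 → cx u m ≤ J →
      ∃ i j, i < j ∧ j ≤ J ∧ ∀ k, u (i + k) = u (j + k)) ∧
    (Low l u → ∃ i j, i < j ∧ j ≤ 2 * (tau a b t l).den ∧ ∀ k, u (i + k) = u (j + k)) := by
  have hx0 := (sum_iff hab h0 h1 u).1 hu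
  obtain ⟨p, q, hp, hpq, hcop, hl, hnum⟩ := setup h0 h1
  have hp' : (0 : ℝ) < p := by exact_mod_cast hp
  have hq' : (0 : ℝ) < q := by exact_mod_cast (by omega : 0 < q)
  set s := (tau a b t l).den with hs
  have hs0 : 0 < s := Rat.den_pos _
  rw [hl] at hx0
  have hint := xx_int (u := u) hp hpq _ hs hx0
  have conv : ∀ J m : ℕ, 2 * (s : ℝ) * (l.num : ℝ) ^ J * (l : ℝ) ^ m ≤ 1 → 2 * s * (p : ℝ) ^ J ≤ ((q : ℝ) / p) ^ m := by
    intro J m h
    have e6 : ((p : ℝ) / q) ^ m * ((q : ℝ) / p) ^ m = 1 := by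
      rw [← mul_pow, div_mul_div_comm, mul_comm (q : ℝ) p, div_self (by positivity), one_pow]
    rw [hnum, hl] at h
    calc 2 * (s : ℝ) * (p : ℝ) ^ J = 2 * s * (p : ℝ) ^ J * (((p : ℝ) / q) ^ m * ((q : ℝ) / p) ^ m) := by
          rw [e6, mul_one]
      _ = (2 * s * (p : ℝ) ^ J * ((p : ℝ) / q) ^ m) * ((q : ℝ) / p) ^ m := by ring
      _ ≤ 1 * ((q : ℝ) / p) ^ m := mul_le_mul_of_nonneg_right h (by positivity)
      _ = _ := one_mul _
  have part2 : ∀ m J : ℕ, 2 * s * (p : ℝ) ^ J ≤ ((q : ℝ) / p) ^ m → cx u m ≤ J →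
      ∃ i j, i < j ∧ j ≤ J ∧ ∀ k, u (i + k) = u (j + k) := by
    intro m J h hJ
    obtain ⟨i, j, hij, hjJ, hag⟩ := xx_pig (u := u) (m := m) hJ
    refine ⟨i, j, hij, hjJ, xx_rep hp hpq hs0 hint hij hag (le_trans ?_ h)⟩
    have h1 : (p : ℝ) ^ j ≤ (p : ℝ) ^ J := pow_le_pow_right₀ (by exact_mod_cast hp) hjJ
    exact mul_le_mul_of_nonneg_left h1 (by positivity)
  refine ⟨fun i j m hij hag hm => xx_rep hp hpq hs0 hint hij hag (conv j m hm),
    fun m J h hJ => part2 m J (conv J m h) hJ, ?_⟩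
  rintro ⟨c, hc, hf⟩
  rw [hnum, hl] at hc
  have hpc : (0 : ℝ) < (p : ℝ) ^ c := Real.rpow_pos_of_pos hp' c
  have hr : 1 < (q : ℝ) / p / (p : ℝ) ^ c := by
    rw [one_lt_div hpc, lt_div_iff₀ hp']
    rw [← mul_div_assoc, div_lt_one hq'] at hc
    exact hc
  have hev : ∀ᶠ m : ℕ in atTop, 2 * (s : ℝ) ≤ ((q : ℝ) / p / (p : ℝ) ^ c) ^ m :=
    (tendsto_pow_atTop_atTop_of_one_lt hr).eventually_ge_atTop _
  obtain ⟨m, hm1, hm2⟩ := (hf.and_eventually hev).exists
  have hcm : 0 ≤ c * m := le_trans (Nat.cast_nonneg _) hm1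
  have hJ : (p : ℝ) ^ ⌊c * m⌋₊ ≤ ((p : ℝ) ^ c) ^ m := by
    rw [← Real.rpow_natCast ((p : ℝ) ^ c) m, ← Real.rpow_mul hp'.le, ← Real.rpow_natCast]
    exact Real.rpow_le_rpow_of_exponent_le (by exact_mod_cast hp) (Nat.floor_le hcm)
  obtain ⟨i, j, hij, -, hall⟩ := part2 m ⌊c * m⌋₊ (by
    calc 2 * (s : ℝ) * (p : ℝ) ^ ⌊c * m⌋₊ ≤ ((q : ℝ) / p / (p : ℝ) ^ c) ^ m * ((p : ℝ) ^ c) ^ m := by
          refine mul_le_mul hm2 hJ (by positivity) (by positivity)
      _ = ((q : ℝ) / p) ^ m := by rw [← mul_pow, div_mul_cancel₀ _ hpc.ne']) (Nat.le_floor hm1)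
  refine xx_per_short hp hpq hcop hs0 hint (N := i) (P := j - i) (by omega) fun n hn => ?_
  have h1 := hall (n - i)
  rw [show i + (n - i) = n by omega, show j + (n - i) = n + (j - i) by omega] at h1
  exact h1.symm

private theorem core {P Q A B : ℕ} (hP : 0 < P) (hPQ : 2 * P < Q) (hB : 0 < B) {a b t : ℚ} (hab : a ≠ b) {l : ℚ}
    (h0 : 0 < l) (h1 : l < 1 / 2) (hlPQ : (l : ℝ) = P / Q) (hτ : tau a b t l = (A : ℚ) / B) :
    (∃ u : ℕ → Bool, HasSum (fun n => (if u n then (a : ℝ) else b) * (l : ℝ) ^ n) t ∧ Low l u) ↔ run P Q A B := by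
  have hP' : (0 : ℝ) < P := by exact_mod_cast hP
  have hQ0 : 0 < Q := by omega
  have hQ' : (0 : ℝ) < Q := by exact_mod_cast hQ0
  have hB' : (0 : ℝ) < B := by exact_mod_cast hB
  have hPQ' : 2 * (P : ℝ) < Q := by exact_mod_cast hPQ
  have hl0 : (0 : ℝ) < l := by exact_mod_cast h0
  have hl1 : (l : ℝ) < 1 := by
    rw [hlPQ, div_lt_one hQ']
    linarith
  have hτ' : ((tau a b t l : ℚ) : ℝ) = (A : ℝ) / B := by
    rw [hτ]
    push_cast
    rfl
  constructor
  · rintro ⟨u, hu, hlow⟩
    obtain ⟨i, j, hij, -, hper⟩ := (part1 hab h0 h1 hu).2.2 hlow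
    have hx0 := (sum_iff hab h0 h1 u).1 hu
    obtain ⟨p, q, hp, hpq, hcop, hl, hnum⟩ := setup h0 h1
    set s := (tau a b t l).den with hs
    have hx0' := hx0
    rw [hl] at hx0'
    have hint := xx_int (u := u) hp hpq _ hs hx0'
    have hz := xx_per_int hp hpq hcop hint (N := i) (P := j - i) (by omega) (fun n hn => by
      have h2 := hper (n - i)
      rw [show i + (n - i) = n by omega, show j + (n - i) = n + (j - i) by omega] at h2
      exact h2.symm)
    rw [← hl] at hz
    -- natural numerators with the denominator `B`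
    have hsB : s ∣ B := by
      rw [hs, hτ]
      have h2 := Rat.den_dvd (A : ℤ) (B : ℤ)
      rw [Rat.divInt_eq_div] at h2
      push_cast at h2
      exact_mod_cast h2
    obtain ⟨e, he⟩ := hsB
    have hY : ∀ n, ∃ y : ℕ, (B : ℝ) * xx l u n = y := by
      intro n
      obtain ⟨z, hz⟩ := hz n
      have h2 : (B : ℝ) * xx l u n = ((e * z : ℤ) : ℝ) := by
        rw [he]
        push_cast
        rw [← hz]
        ring
      have h3 : 0 ≤ (e * z : ℤ) := by
        have : (0 : ℝ) ≤ ((e * z : ℤ) : ℝ) := by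
          rw [← h2]
          exact mul_nonneg hB'.le (xx_nonneg hl0.le u n)
        exact_mod_cast this
      refine ⟨(e * z : ℤ).toNat, ?_⟩
      rw [h2, ← Int.cast_natCast (R := ℝ), Int.toNat_of_nonneg h3]
    choose y hy using hY
    have hle : ∀ n, y n * (Q - P) ≤ B * Q := by
      intro n
      have h2 := xx_le hl0.le hl1 u n
      have h3 : (y n : ℝ) * ((Q : ℝ) - P) ≤ B * Q := by
        rw [← hy n]
        have h4 : (1 - (l : ℝ))⁻¹ = Q / (Q - P) := by
          rw [hlPQ]
          have : (Q : ℝ) - P ≠ 0 := by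
            have : (0 : ℝ) < Q - P := by linarith
            exact this.ne'
          field_simp
        rw [h4, le_div_iff₀ (by linarith)] at h2
        calc (B : ℝ) * xx l u n * ((Q : ℝ) - P) = B * (xx l u n * ((Q : ℝ) - P)) := by ring
          _ ≤ B * Q := mul_le_mul_of_nonneg_left h2 hB'.le
      have h5 : ((y n * (Q - P) : ℕ) : ℝ) ≤ ((B * Q : ℕ) : ℝ) := by
        rw [Nat.cast_mul, Nat.cast_sub (by omega), Nat.cast_mul]
        exact h3
      exact_mod_cast h5
    have hdig : ∀ n, (B ≤ y n ↔ u n = true) := by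
      intro n
      have h2 := xx_step hl0.le hl1 u n
      have h3 := xx_nonneg hl0.le u (n + 1)
      have h4 := xx_le hl0.le hl1 u (n + 1)
      have h5 : (l : ℝ) * (1 - (l : ℝ))⁻¹ < 1 := by
        rw [← div_eq_mul_inv, div_lt_one (by linarith), hlPQ]
        have : (P : ℝ) / Q < 1 / 2 := by
          rw [div_lt_div_iff₀ hQ' (by norm_num)]
          linarith
        linarith
      have h6 : (l : ℝ) * xx l u (n + 1) < 1 := lt_of_le_of_lt (mul_le_mul_of_nonneg_left h4 hl0.le) h5
      have h7 : 0 ≤ (l : ℝ) * xx l u (n + 1) := mul_nonneg hl0.le h3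
      have h8 : (B ≤ y n) ↔ (1 : ℝ) ≤ xx l u n := by
        rw [← Nat.cast_le (α := ℝ), ← hy n]
        constructor
        · intro h
          by_contra h9
          have : (B : ℝ) * xx l u n < B * 1 := mul_lt_mul_of_pos_left (not_le.1 h9) hB'
          linarith
        · intro h
          calc (B : ℝ) = B * 1 := (mul_one _).symm
            _ ≤ _ := mul_le_mul_of_nonneg_left h hB'.le
      rw [h8, h2]
      cases hun : u n
      · simp only [Bool.false_eq_true, if_false, iff_false, not_le]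
        linarith
      · simp only [if_true, iff_true]
        linarith
    have hzz : ∀ n, zz Q B (y n) = P * y (n + 1) := by
      intro n
      have h2 := xx_step hl0.le hl1 u n
      have h3 : ((zz Q B (y n) : ℕ) : ℝ) = P * (y (n + 1) : ℝ) := by
        unfold zz
        have h4 : (((y n - (if B ≤ y n then B else 0) : ℕ)) : ℝ) = B * ((l : ℝ) * xx l u (n + 1)) := by
          by_cases hn : B ≤ y n
          · rw [if_pos hn, Nat.cast_sub hn, ← hy n, h2, if_pos ((hdig n).1 hn)]
            ring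
          · rw [if_neg hn, Nat.sub_zero, ← hy n, h2, if_neg (fun h => hn ((hdig n).2 h))]
            ring
        rw [Nat.cast_mul, h4, ← hy (n + 1), hlPQ]
        field_simp
      exact_mod_cast h3
    have hA : y 0 = A := by
      have h2 := hy 0
      rw [hx0, hτ', mul_div_cancel₀ _ hB'.ne'] at h2
      exact_mod_cast h2.symm
    have horb : ∀ n, (stp P Q B)^[n] (A + 1) = y n + 1 := by
      intro n
      induction n with
      | zero => rw [hA]; rfl
      | succ n ih =>
        rw [stp_succ, ih]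
        unfold stp
        rw [if_neg (by omega), Nat.add_sub_cancel, hzz n, Nat.mul_div_cancel_left _ hP,
          if_pos ⟨Nat.mul_mod_right _ _, hle (n + 1)⟩]
    refine ⟨by rw [← hA]; exact hle 0, ?_⟩
    rw [horb]
    omega
  · intro hr
    obtain ⟨halive, hbd, i, j, hij, hper⟩ := run_per hPQ hB hr
    set y : ℕ → ℕ := fun n => (stp P Q B)^[n] (A + 1) - 1 with hydef
    have hys : ∀ n, zz Q B (y n) = P * y (n + 1) := by
      intro n
      have h2 := halive (n + 1)
      have h3 : y (n + 1) = stp P Q B ((stp P Q B)^[n] (A + 1)) - 1 := by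
        rw [hydef]
        show (stp P Q B)^[n + 1] (A + 1) - 1 = _
        rw [stp_succ]
      rw [stp_succ] at h2
      rw [h3]
      exact stp_spec (halive n) h2
    refine ⟨fun n => decide (B ≤ y n), ?_, low_of_per h0 h1 hij fun k => ?_⟩
    · rw [sum_iff hab h0 h1, hτ']
      have h2 := xx_unique hl0.le hl1 (fun n => decide (B ≤ y n)) (fun n => (y n : ℝ) / B) 2 (fun n => ?_) (fun n => ?_)
      · rw [← h2]
        rfl
      · have h3 : (y n : ℝ) * ((Q : ℝ) - P) ≤ B * Q := by
          have h4 : y n * (Q - P) ≤ B * Q := hbd n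
          have h5 : ((y n * (Q - P) : ℕ) : ℝ) ≤ ((B * Q : ℕ) : ℝ) := Nat.cast_le.2 h4
          have h6 : P ≤ Q := by omega
          rw [Nat.cast_mul, Nat.cast_sub h6, Nat.cast_mul] at h5
          exact h5
        rw [abs_of_nonneg (by positivity), div_le_iff₀ hB']
        by_contra h4
        have h5 : 2 * (B : ℝ) * ((Q : ℝ) - P) < y n * ((Q : ℝ) - P) := mul_lt_mul_of_pos_right (not_le.1 h4) (by linarith)
        nlinarith
      · have h3 : ((zz Q B (y n) : ℕ) : ℝ) = P * (y (n + 1) : ℝ) := by exact_mod_cast hys n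
        unfold zz at h3
        rw [hlPQ]
        by_cases hn : B ≤ y n
        · rw [if_pos hn, Nat.cast_mul, Nat.cast_sub hn] at h3
          rw [if_pos (decide_eq_true hn)]
          field_simp
          linarith
        · rw [if_neg hn, Nat.sub_zero, Nat.cast_mul] at h3
          rw [if_neg (by rw [decide_eq_true_eq]; exact hn)]
          field_simp
          linarith
    · have h2 := hper k
      show decide (B ≤ y (i + k)) = decide (B ≤ y (j + k))
      rw [hydef]
      show decide (B ≤ (stp P Q B)^[i + k] (A + 1) - 1) = decide (B ≤ (stp P Q B)^[j + k] (A + 1) - 1)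
      rw [h2]

private theorem dec_iff (x : XX) : (0 < frac x.2.2 ∧ frac x.2.2 < 1 / 2 ∧ ∃ u : ℕ → Bool,
    HasSum (fun n => (if u n then (frac x.1.1 : ℝ) else frac x.1.2) * (frac x.2.2 : ℝ) ^ n) (frac x.2.1) ∧
      Low (frac x.2.2) u) ↔ dec x := by
  have hcast : ∀ z : ℤ, ((z.toNat : ℕ) : ℚ) - (((-z).toNat : ℕ) : ℚ) = z := by
    intro z
    have h := Int.toNat_sub_toNat_neg z
    exact_mod_cast h
  set l := frac x.2.2 with hl
  have hQ1 : (0 : ℚ) < fQ x := by
    unfold fQ
    positivity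
  -- the condition on `l`
  have hl1 : (0 < l ∧ l < 1 / 2) ↔ (0 < fP x ∧ 2 * fP x < fQ x) := by
    have e : l = (x.2.2.1 : ℚ) / fQ x := by
      rw [hl]
      unfold frac fQ
      push_cast
      rfl
    rw [e, div_pos_iff_of_pos_right hQ1, div_lt_iff₀ hQ1]
    constructor
    · rintro ⟨h1, h2⟩
      have h3 : 0 < x.2.2.1 := by exact_mod_cast h1
      have h4 : ((x.2.2.1.toNat : ℕ) : ℚ) = x.2.2.1 := by
        rw [← Int.cast_natCast (R := ℚ), Int.toNat_of_nonneg h3.le]
      refine ⟨by unfold fP; omega, ?_⟩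
      rw [← h4] at h2
      have h5 : ((2 * fP x : ℕ) : ℚ) < (fQ x : ℚ) := by
        unfold fP
        push_cast
        linarith
      exact_mod_cast h5
    · rintro ⟨h1, h2⟩
      have h3 : 0 < x.2.2.1 := by unfold fP at h1; omega
      have h4 : ((x.2.2.1.toNat : ℕ) : ℚ) = x.2.2.1 := by
        rw [← Int.cast_natCast (R := ℚ), Int.toNat_of_nonneg h3.le]
      refine ⟨by exact_mod_cast h3, ?_⟩
      have h5 : ((2 * fP x : ℕ) : ℚ) < (fQ x : ℚ) := by exact_mod_cast h2
      unfold fP at h5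
      push_cast at h5
      rw [← h4]
      linarith
  unfold dec
  rw [← and_assoc, hl1]
  refine and_congr_right fun hPQ => ?_
  obtain ⟨h0, h1⟩ := hl1.2 hPQ
  obtain ⟨hP, hPQ⟩ := hPQ
  have hP1 : (0 : ℚ) < fP x := by exact_mod_cast hP
  have hPQ1 : 2 * (fP x : ℚ) < fQ x := by exact_mod_cast hPQ
  have hlP : l = (fP x : ℚ) / fQ x := by
    have h3 : 0 < x.2.2.1 := by unfold fP at hP; omega
    have h4 : ((x.2.2.1.toNat : ℕ) : ℚ) = x.2.2.1 := by
      rw [← Int.cast_natCast (R := ℚ), Int.toNat_of_nonneg h3.le]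
    rw [hl]
    unfold frac fP fQ
    rw [h4]
    push_cast
    rfl
  have hlPR : (l : ℝ) = (fP x : ℝ) / fQ x := by
    rw [hlP]
    push_cast
    rfl
  -- numerator and denominator of the normalised target
  set a := frac x.1.1 with ha
  set b := frac x.1.2 with hb
  set t := frac x.2.1 with ht
  have ea : a * ((x.1.1.2 : ℚ) + 1) = x.1.1.1 := by
    rw [ha]
    unfold frac
    rw [div_mul_cancel₀]
    positivity
  have eb : b * ((x.1.2.2 : ℚ) + 1) = x.1.2.1 := by
    rw [hb]
    unfold frac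
    rw [div_mul_cancel₀]
    positivity
  have et : t * ((x.2.1.2 : ℚ) + 1) = x.2.1.1 := by
    rw [ht]
    unfold frac
    rw [div_mul_cancel₀]
    positivity
  set α : ℚ := (x.1.1.2 : ℚ) + 1 with hα
  set β : ℚ := (x.1.2.2 : ℚ) + 1 with hβ
  set θ : ℚ := (x.2.1.2 : ℚ) + 1 with hθ
  have hα0 : 0 < α := by rw [hα]; positivity
  have hβ0 : 0 < β := by rw [hβ]; positivity
  have hθ0 : 0 < θ := by rw [hθ]; positivity
  have hsub : (((fQ x - fP x : ℕ)) : ℚ) = fQ x - fP x := Nat.cast_sub (by omega)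
  have eN : (fNp x : ℚ) - fNm x = α * β * θ * ((fQ x - fP x) * t - fQ x * b) := by
    unfold fNp fNm
    push_cast
    rw [hsub]
    linear_combination (α * β * (fQ x - fP x : ℚ)) * hcast x.2.1.1 - (α * θ * fQ x) * hcast x.1.2.1 -
      (α * β * (fQ x - fP x : ℚ)) * et + (α * θ * fQ x) * eb
  have eD : (fDp x : ℚ) - fDm x = α * β * θ * (fQ x - fP x) * (a - b) := by
    unfold fDp fDm
    push_cast
    rw [hsub]
    linear_combination (θ * β * (fQ x - fP x : ℚ)) * hcast x.1.1.1 - (θ * α * (fQ x - fP x : ℚ)) * hcast x.1.2.1 -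
      (θ * β * (fQ x - fP x : ℚ)) * ea + (θ * α * (fQ x - fP x : ℚ)) * eb
  have hqp : (0 : ℚ) < fQ x - fP x := by linarith
  have hcpos : 0 < α * β * θ := by positivity
  have h1l : 1 - l ≠ 0 := by
    have : l < 1 := by linarith
    linarith
  -- the normalised target
  have htau : a ≠ b → tau a b t l = ((fNp x : ℚ) - fNm x) / ((fDp x : ℚ) - fDm x) := by
    intro hab
    have hab' : a - b ≠ 0 := sub_ne_zero.2 hab
    rw [eN, eD]
    unfold tau
    have h2 : b / (1 - l) = fQ x * b / (fQ x - fP x) := by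
      rw [hlP]
      field_simp
    rw [h2]
    field_simp
  have l0R : (0 : ℝ) < l := by exact_mod_cast h0
  have l1R : (l : ℝ) < 1 := by
    rw [hlPR, div_lt_one (by exact_mod_cast hQ1)]
    have : (fP x : ℝ) < fQ x := by
      have : fP x < fQ x := by omega
      exact_mod_cast this
    exact this
  have hnonneg : ∀ u : ℕ → Bool, a ≠ b → HasSum (fun n => (if u n then (a : ℝ) else b) * (l : ℝ) ^ n) t →
      0 ≤ tau a b t l := by
    intro u hab hu
    have h2 := (sum_iff hab h0 h1 u).1 hu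
    have h3 := xx_nonneg l0R.le u 0
    rw [h2] at h3
    exact_mod_cast h3
  by_cases hab : a = b
  · -- all sequences have the same sum
    have hD : fDp x = fDm x := by
      rw [hab, sub_self, mul_zero] at eD
      have : (fDp x : ℚ) = fDm x := by linarith
      exact_mod_cast this
    have hsum : ∀ u : ℕ → Bool, HasSum (fun n => (if u n then (a : ℝ) else b) * (l : ℝ) ^ n) ((b : ℝ) * (1 - (l : ℝ))⁻¹) := by
      intro u
      refine ((hasSum_geometric_of_lt_one l0R.le l1R).mul_left (b : ℝ)).congr_fun ?_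
      intro n
      rw [hab]
      split_ifs <;> rfl
    have hiff : (∃ u : ℕ → Bool, HasSum (fun n => (if u n then (a : ℝ) else b) * (l : ℝ) ^ n) t ∧ Low l u) ↔
        fNp x = fNm x := by
      have e1 : (t : ℝ) = (b : ℝ) * (1 - (l : ℝ))⁻¹ ↔ fNp x = fNm x := by
        have e2 : (t : ℝ) = (b : ℝ) * (1 - (l : ℝ))⁻¹ ↔ t * (1 - l) = b := by
          have h2 : (1 - (l : ℝ)) ≠ 0 := by
            have : (0 : ℝ) < 1 - l := by linarith
            exact this.ne'
          rw [← div_eq_mul_inv, eq_div_iff h2]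
          exact_mod_cast Iff.rfl
        rw [e2]
        have h3 : (fQ x : ℚ) * (1 - l) = fQ x - fP x := by
          rw [hlP]
          field_simp
        constructor
        · intro h4
          have h5 : (fNp x : ℚ) - fNm x = 0 := by
            rw [eN, ← h3, ← h4]
            ring
          have : (fNp x : ℚ) = fNm x := by linarith
          exact_mod_cast this
        · intro h4
          rw [h4, sub_self] at eN
          have h5 : ((fQ x : ℚ) - fP x) * t - fQ x * b = 0 := by
            rcases mul_eq_zero.1 eN.symm with h6 | h6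
            · exact absurd h6 hcpos.ne'
            · exact h6
          rw [← h3] at h5
          have h6 : (fQ x : ℚ) * (t * (1 - l) - b) = 0 := by linear_combination h5
          rcases mul_eq_zero.1 h6 with h7 | h7
          · exact absurd h7 hQ1.ne'
          · linarith
      rw [← e1]
      constructor
      · rintro ⟨u, hu, -⟩
        exact hu.unique (hsum u)
      · intro h2
        refine ⟨fun _ => false, by rw [h2]; exact hsum _, low_of_per h0 h1 (i := 0) (j := 1) (by norm_num) fun k => rfl⟩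
    rw [hiff]
    constructor
    · intro h2
      exact Or.inl ⟨hD, h2⟩
    · rintro (h2 | ⟨⟨-, h2⟩, -⟩ | ⟨⟨-, h2⟩, -⟩)
      · exact h2.2
      · omega
      · omega
  · have hab' : a - b ≠ 0 := sub_ne_zero.2 hab
    have hDne : (fDp x : ℚ) - fDm x ≠ 0 := by
      rw [eD]
      exact mul_ne_zero (mul_pos hcpos hqp).ne' hab'
    have hDne' : fDp x ≠ fDm x := by
      intro h
      apply hDne
      rw [h, sub_self]
    rcases lt_or_gt_of_ne hDne' with hD | hD
    · -- negative denominator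
      by_cases hN : fNp x ≤ fNm x
      · have hcore := core (P := fP x) (Q := fQ x) (A := fNm x - fNp x) (B := fDm x - fDp x) hP hPQ (by omega) hab h0 h1 hlPR
          (by
            rw [htau hab, Nat.cast_sub hN, Nat.cast_sub hD.le, ← neg_sub (fNm x : ℚ), ← neg_sub (fDm x : ℚ), neg_div_neg_eq])
        rw [hcore]
        constructor
        · intro h2
          exact Or.inr (Or.inr ⟨⟨hN, hD⟩, h2⟩)
        · rintro (h2 | ⟨⟨-, h2⟩, -⟩ | ⟨-, h2⟩)
          · exact absurd h2.1 hDne'
          · omega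
          · exact h2
      · constructor
        · rintro ⟨u, hu, -⟩
          exfalso
          have h2 := hnonneg u hab hu
          rw [htau hab] at h2
          have h3 : ((fNp x : ℚ) - fNm x) / ((fDp x : ℚ) - fDm x) < 0 := by
            refine div_neg_of_pos_of_neg ?_ ?_
            · have : (fNm x : ℚ) < fNp x := by exact_mod_cast not_le.1 hN
              linarith
            · have : (fDp x : ℚ) < fDm x := by exact_mod_cast hD
              linarith
          linarith
        · rintro (h2 | ⟨⟨-, h2⟩, -⟩ | ⟨⟨h2, -⟩, -⟩)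
          · exact absurd h2.1 hDne'
          · omega
          · exact absurd h2 hN
    · by_cases hN : fNm x ≤ fNp x
      · have hcore := core (P := fP x) (Q := fQ x) (A := fNp x - fNm x) (B := fDp x - fDm x) hP hPQ (by omega) hab h0 h1 hlPR
          (by rw [htau hab, Nat.cast_sub hN, Nat.cast_sub hD.le])
        rw [hcore]
        constructor
        · intro h2
          exact Or.inr (Or.inl ⟨⟨hN, hD⟩, h2⟩)
        · rintro (h2 | ⟨-, h2⟩ | ⟨⟨-, h2⟩, -⟩)
          · exact absurd h2.1 hDne'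
          · exact h2
          · omega
      · constructor
        · rintro ⟨u, hu, -⟩
          exfalso
          have h2 := hnonneg u hab hu
          rw [htau hab] at h2
          have h3 : ((fNp x : ℚ) - fNm x) / ((fDp x : ℚ) - fDm x) < 0 := by
            refine div_neg_of_neg_of_pos ?_ ?_
            · have : (fNp x : ℚ) < fNm x := by exact_mod_cast not_le.1 hN
              linarith
            · have : (fDm x : ℚ) < fDp x := by exact_mod_cast hD
              linarith
          linarith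
        · rintro (h2 | ⟨⟨h2, -⟩, -⟩ | ⟨⟨-, h2⟩, -⟩)
          · exact absurd h2.1 hDne'
          · exact absurd h2 hN
          · omega

theorem main : ∃ D : ((ℤ × ℕ) × (ℤ × ℕ)) × ((ℤ × ℕ) × (ℤ × ℕ)) → Bool, Computable D ∧
    ∀ x, ∀ a b t l : ℚ, a = x.1.1.1 / (x.1.1.2 + 1) → b = x.1.2.1 / (x.1.2.2 + 1) → t = x.2.1.1 / (x.2.1.2 + 1) →
      l = x.2.2.1 / (x.2.2.2 + 1) → 0 < l → l < 1 / 2 → ∀ s : ℕ, s = ((t - b / (1 - l)) / (a - b)).den →
      -- the answer is yes: there is a solution with a short initial part and a short period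
      (D x = true → ∃ u : ℕ → Bool, HasSum (fun n => (if u n then (a : ℝ) else b) * (l : ℝ) ^ n) t ∧
        ∃ i j, i < j ∧ j ≤ 2 * s ∧ ∀ k, u (i + k) = u (j + k)) ∧
      -- the answer is no: every solution has only short repetitions and many words of each length
      (D x = false → ∀ u : ℕ → Bool, HasSum (fun n => (if u n then (a : ℝ) else b) * (l : ℝ) ^ n) t →
        (∀ i j m : ℕ, i < j → (∀ k < m, u (i + k) = u (j + k)) → 1 < 2 * s * (l.num : ℝ) ^ j * (l : ℝ) ^ m) ∧
        ∀ c : ℝ, (l.num : ℝ) ^ c * l < 1 → ∀ᶠ m : ℕ in atTop,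
          c * m < (Set.range (fun (i : ℕ) (k : Fin m) => u (i + k))).ncard) := by
  obtain ⟨d, hd⟩ := pr_dec
  refine ⟨fun x => @decide (dec x) (d x), hd.to_comp, ?_⟩
  intro x a b t l ha hb ht hl h0 h1 s hs
  have ha' : a = frac x.1.1 := ha
  have hb' : b = frac x.1.2 := hb
  have ht' : t = frac x.2.1 := ht
  have hl' : l = frac x.2.2 := hl
  have hs' : s = (tau a b t l).den := hs
  clear ha hb ht hl hs
  subst ha' hb' ht' hl' hs'
  constructor
  · intro h
    have h2 : dec x := of_decide_eq_true h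
    obtain ⟨-, -, u, hu, hlow⟩ := (dec_iff x).2 h2
    by_cases hab : frac x.1.1 = frac x.1.2
    · refine ⟨fun _ => false, ?_, 0, 1, by norm_num, ?_, fun _ => rfl⟩
      · refine hu.congr_fun fun n => ?_
        rw [hab]
        split_ifs <;> rfl
      · have := (tau (frac x.1.1) (frac x.1.2) (frac x.2.1) (frac x.2.2)).den_pos
        omega
    · exact ⟨u, hu, (part1 hab h0 h1 hu).2.2 hlow⟩
  · intro h u hu
    have h2 : ¬ dec x := of_decide_eq_false h
    have hno : ∀ v : ℕ → Bool, HasSum (fun n => (if v n then (frac x.1.1 : ℝ) else frac x.1.2) * (frac x.2.2 : ℝ) ^ n)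
        (frac x.2.1) → ¬ Low (frac x.2.2) v := fun v hv hlow => h2 ((dec_iff x).1 ⟨h0, h1, v, hv, hlow⟩)
    constructor
    · intro i j m hij hag
      by_contra hle
      by_cases hab : frac x.1.1 = frac x.1.2
      · refine hno (fun _ => false) ?_ (low_of_per h0 h1 (i := 0) (j := 1) (by norm_num) fun _ => rfl)
        refine hu.congr_fun fun n => ?_
        rw [hab]
        split_ifs <;> rfl
      · exact hno u hu (low_of_per h0 h1 hij ((part1 hab h0 h1 hu).1 i j m hij hag (not_lt.1 hle)))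
    · intro c hc
      by_contra hf
      refine hno u hu ⟨c, hc, ?_⟩
      have h3 : ∃ᶠ m : ℕ in atTop, ¬ (c * m < ((Set.range (fun (i : ℕ) (k : Fin m) => u (i + k))).ncard : ℝ)) :=
        not_eventually.1 hf
      exact h3.mono fun m hm => not_lt.1 hm

end Pool.Agent.Lib.MP_a69748_lc.Low
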